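import Pool.Agent.helper74.FD.SpecF

/-! # fd:LCQ, the local inequality -/

set_option autoImplicit false

open MeasureTheory Filter Set
open scoped ContDiff Topology ComplexConjugate

namespace Pool.Agent.FD

theorem LCQ_cont {m : ℝ → ℂ} (hm : Continuous m) (hc : HasCompactSupport m) : Continuous (fti m) := by
  have hi : Integrable m := hm.integrable_of_hasCompactSupport hc
  unfold fti
  refine continuous_of_dominated (bound := fun ξ => ‖m ξ‖) ?_ ?_ hi.norm ?_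
  · intro x
    exact (by fun_prop : Continuous fun ξ : ℝ => m ξ * Complex.exp (((2 * Real.pi * x * ξ : ℝ) : ℂ) * Complex.I)).aestronglyMeasurable
  · intro x
    refine Eventually.of_forall fun ξ => ?_
    rw [norm_mul, Complex.norm_exp_ofReal_mul_I, mul_one]
  · refine Eventually.of_forall fun ξ => ?_
    fun_prop

theorem LCQ_proof (hFT1 : FT1_stmt) (hPRF : PRF_stmt) (hBM2 : BM2_stmt) (hQUC : QUC_stmt) (hFLP : FLP_stmt) (hFLM : FLM_stmt) (hPHI : PHI_stmt) : LCQ_stmt := by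
  intro ν η hν hν4 hη
  obtain ⟨ψ, C2, hψc, hψ0, hψ1, hψft⟩ := hBM2 (ν / 8) (by positivity)
  have hη' : 0 < η / (16 * C2 ^ 2 + 1) := by positivity
  have hν2 : 0 < ν / 2 := by positivity
  obtain ⟨C, hC, hQ⟩ := hQUC (ν / 2) (1 / (4 * ν)) (3 * ν / 8) (η / (16 * C2 ^ 2 + 1)) hν2 (by linarith) (by positivity) hη'
  refine ⟨C, hC, ?_⟩
  intro X F p hP hF
  obtain ⟨hFT, hFc, hFi, hFinv, hFb, hF2, hFsq, hFTsq, hPl⟩ := hFT1 X F hF
  have hFcont : Continuous F := hF.cont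
  obtain ⟨hml, hsum⟩ := hFLM ψ C2 (ν / 8) hψc hψ0 hψft X F p hF
  have hψ4 : ∀ y, 1 / 4 ≤ |y| → ψ y = 0 := fun y hy => hψ0 y (by linarith)
  have hFlp : ∀ x, HasSum (fun l : ℤ => ‖Fl F ψ l x‖ ^ 2) (∫ y : ℝ, ‖F (x - y)‖ ^ 2 * ψ y ^ 2) := fun x => hFLP F ψ x hFcont hψc hψ4
  set Φ : ℝ → ℝ := fun x => ∫ y : ℝ, ‖F (x - y)‖ ^ 2 * ψ y ^ 2 with hΦ
  have hΦc : Continuous Φ := (hPHI F ψ (ν / 8) 0 0 hFcont hψc (by positivity) hψ0 hψ1 le_rfl).1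
  -- continuity of the pieces
  have hFlc : ∀ l : ℤ, Continuous (fun s : ℝ => ‖Fl F ψ l (s + p)‖ ^ 2) := by
    intro l
    have h1 : (fun s : ℝ => ‖Fl F ψ l (s + p)‖ ^ 2) = fun s => ‖fti (ml F ψ l p) s‖ ^ 2 := by
      funext s
      rw [(hml l).2.2.2 s]
    rw [h1]
    exact ((LCQ_cont (hml l).1 (hml l).2.1).norm).pow 2
  have hHS : ∀ a b : ℝ, HasSum (fun l : ℤ => ∫ s in a..b, ‖Fl F ψ l (s + p)‖ ^ 2) (∫ s in a..b, Φ (s + p)) := by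
    intro a b
    refine intervalIntegral.hasSum_integral_of_dominated_convergence (fun l s => ‖Fl F ψ l (s + p)‖ ^ 2) ?_ ?_ ?_ ?_ ?_
    · intro l
      exact (hFlc l).aestronglyMeasurable
    · intro l
      refine Eventually.of_forall fun t _ => ?_
      rw [Real.norm_of_nonneg (by positivity)]
    · exact Eventually.of_forall fun t _ => (hFlp (t + p)).summable
    · have h1 : (fun t : ℝ => ∑' l : ℤ, ‖Fl F ψ l (t + p)‖ ^ 2) = fun t => Φ (t + p) := by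
        funext t
        exact (hFlp (t + p)).tsum_eq
      rw [h1]
      exact (hΦc.comp (continuous_add_const p)).intervalIntegrable _ _
    · exact Eventually.of_forall fun t _ => hFlp (t + p)
  have hone : ∀ l : ℤ, ∫ s in (-2 : ℝ)..2, ‖Fl F ψ l (s + p)‖ ^ 2 ≤ C * (∫ s in (-(3 * ν / 8))..(3 * ν / 8), ‖Fl F ψ l (s + p)‖ ^ 2)
      + η / (16 * C2 ^ 2 + 1) * (∫ ξ, ‖ml F ψ l p ξ‖ * (1 + |ξ|)) ^ 2 := by
    intro l
    have hPl' : Por (ν / 2) (1 / (4 * ν)) {y : ℝ | y + (l : ℝ) ∈ X} := hPRF.2.2.1 (ν / 2) (1 / (4 * ν)) l X hP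
    have h1 := hQ {y : ℝ | y + (l : ℝ) ∈ X} (ml F ψ l p) hPl' (hml l).1 (hml l).2.1 (fun ξ hξ => (hml l).2.2.1 ξ hξ)
    have h2 : ∀ s, ‖fti (ml F ψ l p) s‖ = ‖Fl F ψ l (s + p)‖ := (hml l).2.2.2
    simp only [h2] at h1
    exact h1
  have hbig : ∫ s in (-2 : ℝ)..2, Φ (s + p) ≤ C * (∫ s in (-(3 * ν / 8))..(3 * ν / 8), Φ (s + p)) + η * ∫ x, ‖F x‖ ^ 2 := by
    refine hasSum_le_of_sum_le (hHS (-2) 2) ?_
    intro Q
    have h1 : ∑ l ∈ Q, ∫ s in (-2 : ℝ)..2, ‖Fl F ψ l (s + p)‖ ^ 2 ≤ C * (∑ l ∈ Q, ∫ s in (-(3 * ν / 8))..(3 * ν / 8), ‖Fl F ψ l (s + p)‖ ^ 2)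
      + η / (16 * C2 ^ 2 + 1) * ∑ l ∈ Q, (∫ ξ, ‖ml F ψ l p ξ‖ * (1 + |ξ|)) ^ 2 := by
      rw [Finset.mul_sum, Finset.mul_sum, ← Finset.sum_add_distrib]
      exact Finset.sum_le_sum fun l _ => hone l
    have h2 : ∑ l ∈ Q, ∫ s in (-(3 * ν / 8))..(3 * ν / 8), ‖Fl F ψ l (s + p)‖ ^ 2 ≤ ∫ s in (-(3 * ν / 8))..(3 * ν / 8), Φ (s + p) := by
      refine sum_le_hasSum Q (fun l _ => ?_) (hHS _ _)
      exact intervalIntegral.integral_nonneg (by linarith) fun s _ => by positivity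
    have h3 := hsum Q
    have hF0 : 0 ≤ ∫ x, ‖F x‖ ^ 2 := integral_nonneg fun x => by positivity
    have h4 : η / (16 * C2 ^ 2 + 1) * ∑ l ∈ Q, (∫ ξ, ‖ml F ψ l p ξ‖ * (1 + |ξ|)) ^ 2 ≤ η * ∫ x, ‖F x‖ ^ 2 := by
      calc η / (16 * C2 ^ 2 + 1) * ∑ l ∈ Q, (∫ ξ, ‖ml F ψ l p ξ‖ * (1 + |ξ|)) ^ 2 
          ≤ η / (16 * C2 ^ 2 + 1) * (16 * C2 ^ 2 * ∫ x, ‖F x‖ ^ 2) := mul_le_mul_of_nonneg_left h3 hη'.le
        _ = η * (16 * C2 ^ 2 / (16 * C2 ^ 2 + 1)) * ∫ x, ‖F x‖ ^ 2 := by ring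
        _ ≤ η * 1 * ∫ x, ‖F x‖ ^ 2 := by
            refine mul_le_mul_of_nonneg_right (mul_le_mul_of_nonneg_left ?_ hη.le) hF0
            rw [div_le_one (by positivity)]
            linarith
        _ = η * ∫ x, ‖F x‖ ^ 2 := by ring
    have h5 := mul_le_mul_of_nonneg_left h2 hC.le
    linarith
  -- back to F
  have hsub : ∀ a b : ℝ, ∫ s in a..b, Φ (s + p) = ∫ x in (a + p)..(b + p), Φ x := fun a b =>
    intervalIntegral.integral_comp_add_right (fun x => Φ x) p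
  have e1 : ∫ s in (-2 : ℝ)..2, Φ (s + p) = ∫ x in (p - 2)..(p + 2), Φ x := by
    rw [hsub, show (-2 : ℝ) + p = p - 2 by ring, show (2 : ℝ) + p = p + 2 by ring]
  have e2 : ∫ s in (-(3 * ν / 8))..(3 * ν / 8), Φ (s + p) = ∫ x in (p - 3 * ν / 8)..(p + 3 * ν / 8), Φ x := by
    rw [hsub, show -(3 * ν / 8) + p = p - 3 * ν / 8 by ring, show (3 * ν / 8) + p = p + 3 * ν / 8 by ring]
  have g1 := (hPHI F ψ (ν / 8) (p - 2) (p + 2) hFcont hψc (by positivity) hψ0 hψ1 (by linarith)).2.2 (by linarith)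
  have g2 := (hPHI F ψ (ν / 8) (p - 3 * ν / 8) (p + 3 * ν / 8) hFcont hψc (by positivity) hψ0 hψ1 (by linarith)).2.1
  have g3 : ∫ x in (p - 1)..(p + 1), ‖F x‖ ^ 2 ≤ ∫ x in (p - 2 + ν / 8)..(p + 2 - ν / 8), ‖F x‖ ^ 2 := by
    refine intervalIntegral.integral_mono_interval (by linarith) (by linarith) (by linarith) ?_ ?_
    · exact Eventually.of_forall fun x => by positivity
    · exact (hFcont.norm.pow 2).intervalIntegrable _ _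
  rw [show p - 3 * ν / 8 - ν / 8 = p - ν / 2 by ring, show p + 3 * ν / 8 + ν / 8 = p + ν / 2 by ring] at g2
  rw [e1, e2] at hbig
  have g4 := mul_le_mul_of_nonneg_left g2 hC.le
  have g5 : ∫ x in (p - 2 + ν / 8)..(p + 2 - ν / 8), ‖F x‖ ^ 2 ≤ ∫ x in (p - 2)..(p + 2), Φ x := g1
  have g6 : C * (∫ x in (p - 3 * ν / 8)..(p + 3 * ν / 8), Φ x) ≤ C * ∫ x in (p - ν / 2)..(p + ν / 2), ‖F x‖ ^ 2 := g4
  linarith

end Pool.Agent.FD
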